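import Pool.Agent.RSM.Main

/-!
# Every complete bipartite graph is determined by its resistance spectrum

`resistanceSpectrum G` is the multiset of the resistance distances
`R_G(u,v) = (e_u - e_v)ᵀ L⁺ (e_u - e_v)` over all unordered pairs of distinct vertices of `G`, where
`L⁺` is the Moore-Penrose pseudoinverse of the Laplacian of `G`, defined by the four Penrose
conditions (`Pool.Agent.RSM.Def`; `Pool.Agent.RSM.lapPinv_spec` proves that it exists and is unique
for every connected graph).
-/

namespace Pool.Agent.Results.MP_23a9ba_co.Full

open Pool.Agent.RSM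

/-- For all `m, n ≥ 1`, every finite connected graph `H` with the resistance spectrum of `K_{m,n}`
is isomorphic to `K_{m,n}`. -/
theorem result (m n : ℕ) (hm : 1 ≤ m) (hn : 1 ≤ n) {V : Type*} [Fintype V] [DecidableEq V]
    (H : SimpleGraph V) (hH : H.Connected)
    (hRS : resistanceSpectrum H = resistanceSpectrum (completeBipartiteGraph (Fin m) (Fin n))) :
    Nonempty (H ≃g completeBipartiteGraph (Fin m) (Fin n)) :=
  full m n hm hn H hH hRS

end Pool.Agent.Results.MP_23a9ba_co.Full
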